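import Pool.Agent.Helper95.AU.Defs
import Pool.Agent.Helper82.AN.Ndg
import Pool.Agent.Helper82.AN.IntLog

/-! # Project AU, block U6: measure of the component and value of the exponent -/

set_option autoImplicit false
open MeasureTheory Real Set Filter Topology
open scoped ENNReal

namespace Pool.Agent.Helper80.AU

open Pool.Agent.Helper18.UC (nn LL sqo rep toT)
open Pool.Agent.Helper46.QP (TT Td va)

private lemma core1_1 {X : Type*} [MeasurableSpace X] {μ : Measure X} [IsProbabilityMeasure μ] {Ω S : Set X}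
    (hΩ : MeasurableSet Ω) (hS : MeasurableSet S) {lam g : X → ℝ} (hl : Integrable lam μ) (hg : Integrable g μ)
    (hg0 : ∀ p, 0 ≤ g p) {s t : ℝ} (ht : 0 ≤ t) (h1 : ∀ᵐ p ∂μ, p ∈ Ωᶜ → lam p ≤ s)
    (h2 : ∫ p in Ω, lam p ∂μ ≤ ∫ p in Ω, g p ∂μ) (h3 : ∀ p, p ∉ S → t ≤ g p) :
    ∫ p, lam p ∂μ ≤ ∫ p, g p ∂μ - (t - s) * μ.real Ωᶜ + t * μ.real S := by
  have e1 : ∫ p, lam p ∂μ = ∫ p in Ω, lam p ∂μ + ∫ p in Ωᶜ, lam p ∂μ := (integral_add_compl hΩ hl).symm
  have e2 : ∫ p, g p ∂μ = ∫ p in Ω, g p ∂μ + ∫ p in Ωᶜ, g p ∂μ := (integral_add_compl hΩ hg).symm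
  have e3 : ∫ p in Ωᶜ, lam p ∂μ ≤ s * μ.real Ωᶜ := by
    have h4 : ∫ p in Ωᶜ, lam p ∂μ ≤ ∫ _ in Ωᶜ, s ∂μ :=
      setIntegral_mono_on_ae hl.integrableOn (integrable_const s).integrableOn hΩ.compl h1
    rw [setIntegral_const, smul_eq_mul, mul_comm] at h4
    exact h4
  have e4 : t * μ.real Ωᶜ - t * μ.real S ≤ ∫ p in Ωᶜ, g p ∂μ := by
    have hi : Integrable (S.indicator fun _ : X => t) μ := (integrable_const t).indicator hS
    have h5 : ∫ p in Ωᶜ, (t - S.indicator (fun _ => t) p) ∂μ ≤ ∫ p in Ωᶜ, g p ∂μ := by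
      refine setIntegral_mono ((integrable_const t).sub hi).integrableOn hg.integrableOn ?_
      intro p
      by_cases hp : p ∈ S
      · simp [hp, hg0 p]
      · simpa [hp] using h3 p hp
    rw [integral_sub (integrable_const t).integrableOn hi.integrableOn, setIntegral_const, smul_eq_mul,
      setIntegral_indicator hS, setIntegral_const, smul_eq_mul] at h5
    have h6 : μ.real (Ωᶜ ∩ S) ≤ μ.real S := measureReal_mono inter_subset_right
    have h7 := mul_le_mul_of_nonneg_right h6 ht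
    linarith
  linarith

private lemma core2_1 {X : Type*} [MeasurableSpace X] {μ : Measure X} [IsProbabilityMeasure μ] {Ω : Set X}
    (hΩ : MeasurableSet Ω) {lam g : X → ℝ} (hl : Integrable lam μ) (hg : Integrable g μ)
    (hg0 : ∀ p, 0 ≤ g p) {s B Λ : ℝ} (h1 : ∀ᵐ p ∂μ, p ∈ Ωᶜ → lam p ≤ s)
    (h2 : ∫ p in Ω, lam p ∂μ ≤ ∫ p in Ω, g p ∂μ) (hb : ∀ p, 0 ≤ lam p ∧ lam p ≤ B) (hm : μ.real Ωᶜ < 1)
    (hΛ : ∀ᵐ p ∂μ, p ∈ Ω → lam p = Λ) :
    Λ ≤ ∫ p, g p ∂μ + B * μ.real Ωᶜ ∧ ∫ p, lam p ∂μ - s * μ.real Ωᶜ ≤ Λ := by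
  have hc : μ.real Ω = 1 - μ.real Ωᶜ := by
    rw [probReal_compl_eq_one_sub hΩ]
    ring
  have hpos : 0 < μ.real Ω := by linarith
  have hr : ∀ᵐ p ∂μ.restrict Ω, lam p = Λ := (ae_restrict_iff' hΩ).2 hΛ
  have hne : (ae (μ.restrict Ω)).NeBot := by
    rw [ae_neBot, Ne, Measure.restrict_eq_zero]
    intro h0
    rw [measureReal_def, h0, ENNReal.toReal_zero] at hpos
    exact lt_irrefl _ hpos
  obtain ⟨p, hp⟩ := hr.exists
  have hΛ0 : 0 ≤ Λ := hp ▸ (hb p).1
  have hΛB : Λ ≤ B := hp ▸ (hb p).2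
  have hm0 : 0 ≤ μ.real Ωᶜ := measureReal_nonneg
  have e0 : ∫ p in Ω, lam p ∂μ = Λ * μ.real Ω := by
    rw [integral_congr_ae hr, setIntegral_const, smul_eq_mul, mul_comm]
  have e1 : ∫ p, lam p ∂μ = ∫ p in Ω, lam p ∂μ + ∫ p in Ωᶜ, lam p ∂μ := (integral_add_compl hΩ hl).symm
  have e2 : ∫ p in Ω, g p ∂μ ≤ ∫ p, g p ∂μ := setIntegral_le_integral hg (Eventually.of_forall hg0)
  have e3 : ∫ p in Ωᶜ, lam p ∂μ ≤ s * μ.real Ωᶜ := by
    have h4 : ∫ p in Ωᶜ, lam p ∂μ ≤ ∫ _ in Ωᶜ, s ∂μ :=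
      setIntegral_mono_on_ae hl.integrableOn (integrable_const s).integrableOn hΩ.compl h1
    rw [setIntegral_const, smul_eq_mul, mul_comm] at h4
    exact h4
  rw [hc] at e0
  constructor
  · have h5 : Λ * μ.real Ωᶜ ≤ B * μ.real Ωᶜ := mul_le_mul_of_nonneg_right hΛB hm0
    nlinarith
  · have h6 : 0 ≤ Λ * μ.real Ωᶜ := mul_nonneg hΛ0 hm0
    nlinarith

private lemma num1_1 {e : ℝ} (he : 0 < e) {K κ₁ : ℝ} (hK : 1 ≤ K) (hκ₁ : 1 ≤ κ₁) : ∃ A₂ : ℝ, 1 ≤ A₂ ∧
    ∀ x : ℝ, A₂ ≤ x → 100 ≤ x ∧ 3 ≤ Real.log x ∧ Real.log (2 * π * √x + 4) ≤ Real.log x ∧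
      Real.log (2 * π * (κ₁ * x) + 4) ≤ 2 * Real.log x ∧ K * Real.log x * x ^ (-e) ≤ x ^ (-(e / 2)) := by
  refine ⟨max 100 (max (2 * π * κ₁ + 4) ((K * (4 / e)) ^ (4 / e))), le_trans (by norm_num) (le_max_left _ _),
    fun x hx => ?_⟩
  have h1 : 100 ≤ x := (le_max_left _ _).trans hx
  have h2 : 2 * π * κ₁ + 4 ≤ x := ((le_max_left _ _).trans (le_max_right _ _)).trans hx
  have h3 : (K * (4 / e)) ^ (4 / e) ≤ x := ((le_max_right _ _).trans (le_max_right _ _)).trans hx
  have hx0 : 0 < x := by linarith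
  have hlog : 3 ≤ Real.log x := by
    rw [Real.le_log_iff_exp_le hx0]
    have e3 : Real.exp 3 = Real.exp 1 ^ 3 := by
      rw [← Real.exp_nat_mul]
      norm_num
    rw [e3]
    have h4 := Real.exp_one_lt_d9
    have h5 : Real.exp 1 ^ 3 ≤ (3 : ℝ) ^ 3 := pow_le_pow_left₀ (Real.exp_pos 1).le (by linarith) 3
    linarith
  have hpi4 := Real.pi_lt_d2
  have hpi3 := Real.pi_gt_three
  have hs : √x * √x = x := Real.mul_self_sqrt hx0.le
  have hs10 : 10 ≤ √x := Real.le_sqrt_of_sq_le (by linarith)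
  refine ⟨h1, hlog, ?_, ?_, ?_⟩
  · refine Real.log_le_log (by positivity) ?_
    nlinarith
  · have h6 : 2 * Real.log x = Real.log (x ^ 2) := by
      rw [Real.log_pow]
      norm_num
    rw [h6]
    refine Real.log_le_log (by positivity) ?_
    nlinarith
  · have h7 : Real.log x ≤ x ^ (e / 4) / (e / 4) := Real.log_le_rpow_div hx0.le (by positivity)
    have h8 : K * (4 / e) ≤ x ^ (e / 4) := by
      have h9 : ((K * (4 / e)) ^ (4 / e)) ^ (e / 4) ≤ x ^ (e / 4) :=
        Real.rpow_le_rpow (by positivity) h3 (by positivity)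
      rw [← Real.rpow_mul (by positivity)] at h9
      have h10 : 4 / e * (e / 4) = 1 := by field_simp
      rwa [h10, Real.rpow_one] at h9
    have h11 : K * Real.log x ≤ x ^ (e / 2) := by
      calc K * Real.log x ≤ K * (x ^ (e / 4) / (e / 4)) := mul_le_mul_of_nonneg_left h7 (by linarith)
        _ = K * (4 / e) * x ^ (e / 4) := by field_simp
        _ ≤ x ^ (e / 4) * x ^ (e / 4) := mul_le_mul_of_nonneg_right h8 (by positivity)
        _ = x ^ (e / 2) := by
          rw [← Real.rpow_add hx0]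
          congr 1
          ring
    calc K * Real.log x * x ^ (-e) ≤ x ^ (e / 2) * x ^ (-e) := mul_le_mul_of_nonneg_right h11 (by positivity)
      _ = x ^ (-(e / 2)) := by
        rw [← Real.rpow_add hx0]
        congr 1
        ring

private lemma prob80 (d : ℕ) : IsProbabilityMeasure (volume : Measure (Td d × TT)) := by
  have h1 : IsProbabilityMeasure (volume : Measure UnitAddCircle) := ⟨by
    rw [AddCircle.measure_univ, ENNReal.ofReal_one]⟩
  have h2 : IsProbabilityMeasure (volume : Measure TT) := by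
    change IsProbabilityMeasure ((volume : Measure UnitAddCircle).prod (volume : Measure UnitAddCircle))
    infer_instance
  have h3 : IsProbabilityMeasure (volume : Measure (Td d)) := by
    change IsProbabilityMeasure (Measure.pi fun _ => (volume : Measure UnitAddCircle))
    infer_instance
  change IsProbabilityMeasure ((volume : Measure (Td d)).prod (volume : Measure TT))
  infer_instance

/-- the projection to the coordinate `x` -/
private lemma pr_mp80 (d : ℕ) : MeasurePreserving (fun p : Td d × TT => p.2.1) volume volume := by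
  have h0 : IsProbabilityMeasure (volume : Measure UnitAddCircle) := ⟨by
    rw [AddCircle.measure_univ, ENNReal.ofReal_one]⟩
  have h3 : IsProbabilityMeasure (volume : Measure (Td d)) := by
    change IsProbabilityMeasure (Measure.pi fun _ => (volume : Measure UnitAddCircle))
    infer_instance
  have h1 : MeasurePreserving (Prod.fst : TT → UnitAddCircle) (volume : Measure TT) volume :=
    measurePreserving_fst
  have h2 : MeasurePreserving (Prod.snd : Td d × TT → TT) (volume : Measure (Td d × TT)) volume :=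
    measurePreserving_snd
  exact h1.comp h2

private lemma va80 (a : ℝ) (x : UnitAddCircle) : va (a : ℂ) x = 2 + 2 * π * a * (fourier 1 x : ℂ).re := by
  show 2 + 2 * π * (((a : ℝ) : ℂ) * Pool.Agent.Helper46.QP.ee x).re = _
  rw [Complex.re_ofReal_mul]
  unfold Pool.Agent.Helper46.QP.ee
  ring

private lemma nd80 (d : ℕ) {a : ℝ} (ha : 1 ≤ |a|) :
    Pool.Agent.Helper82.AN.ND (fun _ : Td d => a) |a| (1 / 2) 1 := by
  have h3 : IsProbabilityMeasure (volume : Measure (Td d)) := by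
    change IsProbabilityMeasure (Measure.pi fun _ => (volume : Measure UnitAddCircle))
    infer_instance
  intro t ht
  have ha0 : 0 < |a| := by linarith
  rcases le_or_gt t 1 with h1 | h1
  · have e : {θ : Td d | |(fun _ : Td d => a) θ| < t * |a|} = ∅ := by
      rw [eq_empty_iff_forall_notMem]
      intro θ hθ
      have h2 : |a| < t * |a| := hθ
      nlinarith
    rw [e, measure_empty]
    exact zero_le
  · refine prob_le_one.trans ?_
    rw [one_mul, ← ENNReal.ofReal_one]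
    exact ENNReal.ofReal_le_ofReal (Real.one_le_rpow h1.le (by norm_num))

/-- **U6** -/
theorem big {κ : ℝ} (hκ : 0 < κ) : ∃ κ' : ℝ, 0 < κ' ∧ ∃ A₂ : ℝ, 1 ≤ A₂ ∧ ∀ (d : ℕ) (a : ℝ) (lam : Td d × TT → ℝ)
    (O : Set (Td d × TT)), A₂ ≤ |a| → Measurable lam → MeasurableSet O →
      (∀ p, 0 ≤ lam p ∧ lam p ≤ Real.log (LL a)) → (∀ᵐ p, p ∈ O ↔ 7 / 8 * Real.log |a| < lam p) →
      (∫ p in O, lam p ≤ ∫ p in O, Real.log (|2 + 2 * π * a * (fourier 1 p.2.1 : ℂ).re| + 2)) →
      Real.log (π * |a|) - |a| ^ (-κ) ≤ ∫ p, lam p →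
      volume.real Oᶜ ≤ |a| ^ (-κ') ∧
      ∀ Λ : ℝ, (∀ᵐ p, p ∈ O → lam p = Λ) → |Λ - Real.log (π * |a|)| ≤ |a| ^ (-κ') := by
  obtain ⟨C, hC, hnd⟩ := Pool.Agent.Helper82.AN.nd_v (c := 1 / 2) (by norm_num) (by norm_num)
  set e : ℝ := min κ (1 / 32) with he
  have he0 : 0 < e := lt_min hκ (by norm_num)
  have heκ : e ≤ κ := min_le_left _ _
  have hec : e ≤ 1 / 32 := min_le_right _ _
  obtain ⟨A₂, hA₂, hnum⟩ := num1_1 he0 (K := 200 * C) (κ₁ := 1) (by linarith) le_rfl
  refine ⟨e / 2, by linarith, A₂, hA₂, ?_⟩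
  intro d a lam O ha hmeas hO hb hom hint hJ
  have hprob := prob80 d
  obtain ⟨h100, h3, -, hlL, hfin⟩ := hnum |a| ha
  have h0 : 0 < |a| := by linarith
  have hone : 1 ≤ |a| := by linarith
  rw [one_mul] at hlL
  set ℓ : ℝ := Real.log |a| with hℓ
  set s : ℝ := 7 / 8 * ℓ with hs
  set E : ℝ := |a| ^ (-e) with hE
  have hE0 : 0 < E := Real.rpow_pos_of_pos h0 _
  have hexp : ∀ y : ℝ, e ≤ y → |a| ^ (-y) ≤ E := fun y hy =>
    Real.rpow_le_rpow_of_exponent_le hone (by linarith)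
  have hlint : Integrable lam := Integrable.of_bound hmeas.aestronglyMeasurable
    (Real.log (LL a)) (Eventually.of_forall fun p => by
      rw [Real.norm_eq_abs, abs_of_nonneg (hb p).1]
      exact (hb p).2)
  set g : Td d × TT → ℝ := fun p => Real.log (|2 + 2 * π * a * (fourier 1 p.2.1 : ℂ).re| + 2) with hg
  have hvc : Continuous fun x : UnitAddCircle => 2 + 2 * π * a * (fourier 1 x : ℂ).re :=
    continuous_const.add (continuous_const.mul (Complex.continuous_re.comp (fourier 1).continuous))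
  have hgc0 : Continuous fun x : UnitAddCircle => Real.log (|2 + 2 * π * a * (fourier 1 x : ℂ).re| + 2) :=
    Continuous.log (hvc.abs.add continuous_const) fun x => ne_of_gt (by
      have h1 := abs_nonneg (2 + 2 * π * a * (fourier 1 x : ℂ).re)
      linarith)
  have hpc : Continuous fun p : Td d × TT => p.2.1 := continuous_fst.comp continuous_snd
  have hgc : Continuous g := hgc0.comp hpc
  have hgint : Integrable g := hgc.integrable_of_hasCompactSupport (HasCompactSupport.of_compactSpace _)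
  have hg0 : ∀ p, 0 ≤ g p := fun p => Real.log_nonneg (by
    have := abs_nonneg (2 + 2 * π * a * (fourier 1 p.2.1 : ℂ).re)
    linarith)
  have h1 : ∀ᵐ p, p ∈ Oᶜ → lam p ≤ s := by
    filter_upwards [hom] with p hp hpc
    by_contra hcon
    exact hpc (hp.2 (not_le.1 hcon))
  set V : ℝ := |a| ^ (15 / 16 : ℝ) with hV
  have hV4 : 4 ≤ V := by
    have h5 : |a| ^ (1 / 2 : ℝ) ≤ V := Real.rpow_le_rpow_of_exponent_le hone (by norm_num)
    have h6 : 10 ≤ |a| ^ (1 / 2 : ℝ) := by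
      rw [← Real.sqrt_eq_rpow]
      exact Real.le_sqrt_of_sq_le (by linarith)
    linarith
  have hlV : Real.log V = 15 / 16 * ℓ := by rw [hV, Real.log_rpow h0]
  set S : Set (Td d × TT) := {p | |2 + 2 * π * a * (fourier 1 p.2.1 : ℂ).re| < V} with hS
  have hSm : MeasurableSet S := measurableSet_lt (hvc.comp hpc).measurable.abs measurable_const
  have hSv : volume.real S ≤ C * E := by
    have h5 := hnd d (fun _ => a) |a| 1 V continuous_const hone le_rfl (nd80 d hone) hV4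
    have e1 : {p : Td d × TT | |va (((fun _ : Td d => a) p.1 : ℝ) : ℂ) p.2.1| < V} = S := by
      ext p
      simp only [hS, Set.mem_ofPred_eq, va80]
    rw [e1] at h5
    have h6 : (V / |a|) ^ (1 / 2 : ℝ) ≤ E := by
      have h7 : V / |a| = |a| ^ (-(1 / 16) : ℝ) := by
        rw [hV]
        nth_rewrite 2 [← Real.rpow_one |a|]
        rw [← Real.rpow_sub h0]
        norm_num
      rw [h7, ← Real.rpow_mul h0.le]
      have h8 : (-(1 / 16) : ℝ) * (1 / 2) = -(1 / 32) := by norm_num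
      rw [h8]
      exact hexp _ hec
    have h9 : volume.real S ≤ C * 1 * (V / |a|) ^ (1 / 2 : ℝ) :=
      ENNReal.toReal_le_of_le_ofReal (by positivity) h5
    rw [mul_one] at h9
    exact h9.trans (mul_le_mul_of_nonneg_left h6 (by linarith))
  have h4 : ∀ p, p ∉ S → 15 / 16 * ℓ ≤ g p := by
    intro p hp
    have h5 : V ≤ |2 + 2 * π * a * (fourier 1 p.2.1 : ℂ).re| := not_lt.1 hp
    rw [← hlV]
    exact Real.log_le_log (by linarith) (by linarith)
  set m : ℝ := volume.real Oᶜ with hm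
  have hm0 : 0 ≤ m := measureReal_nonneg
  have hℓ0 : 0 ≤ 15 / 16 * ℓ := by linarith
  have hc1' := core1_1 hO hSm hlint hgint hg0 hℓ0 h1 hint h4
  rw [← hm] at hc1'
  have hup : ∫ p, g p ≤ Real.log (π * |a|) + 2 * E := by
    have h5 := Pool.Agent.Helper82.AN.int_log_up (A := a) hone
    have e1 : ∫ p, g p = ∫ x : UnitAddCircle, Real.log (|va (a : ℂ) x| + 2) := by
      have h6 := integral_map (μ := (volume : Measure (Td d × TT))) (pr_mp80 d).measurable.aemeasurable
        (f := fun x : UnitAddCircle => Real.log (|2 + 2 * π * a * (fourier 1 x : ℂ).re| + 2))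
        hgc0.aestronglyMeasurable
      rw [(pr_mp80 d).map_eq] at h6
      rw [← h6]
      simp only [va80]
    rw [e1]
    have h7 : 2 / √|a| ≤ 2 * E := by
      have h8 : 1 / √|a| = |a| ^ (-(1 / 2) : ℝ) := by
        rw [Real.sqrt_eq_rpow, Real.rpow_neg h0.le, one_div]
      have h9 : |a| ^ (-(1 / 2) : ℝ) ≤ E := hexp _ (by linarith)
      calc 2 / √|a| = 2 * (1 / √|a|) := by ring
        _ = 2 * |a| ^ (-(1 / 2) : ℝ) := by rw [h8]
        _ ≤ 2 * E := by linarith
    linarith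
  have hκE : |a| ^ (-κ) ≤ E := hexp _ heκ
  have hCE : E ≤ C * E := by nlinarith
  set D : ℝ := C * E with hD
  have hD0 : 0 < D := lt_of_lt_of_le hE0 hCE
  have hfin' : 200 * ℓ * D ≤ |a| ^ (-(e / 2)) := by
    refine le_trans (le_of_eq ?_) hfin
    rw [hD]
    ring
  have hq1 : |a| ^ (-(e / 2)) ≤ 1 := Real.rpow_le_one_of_one_le_of_nonpos hone (by linarith)
  have hℓD : 3 * D ≤ ℓ * D := mul_le_mul_of_nonneg_right h3 hD0.le
  -- the measure
  have hmE : m ≤ 48 * D := by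
    have h5 : 1 / 16 * ℓ * m ≤ 3 * E + 15 / 16 * ℓ * D := by
      have h6 := mul_le_mul_of_nonneg_left hSv hℓ0
      have h7 : (15 / 16 * ℓ - s) * m = 1 / 16 * ℓ * m := by rw [hs]; ring
      rw [h7] at hc1'
      linarith
    have h8 : ℓ * m ≤ ℓ * (48 * D) := by nlinarith
    exact le_of_mul_le_mul_left h8 (by linarith)
  have hm1 : m < 1 := by nlinarith
  refine ⟨by nlinarith, fun Λ hΛ => ?_⟩
  obtain ⟨hu, hd⟩ := core2_1 hO hlint hgint hg0 h1 hint hb hm1 hΛ
  rw [← hm] at hu hd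
  have hBL : Real.log (LL a) ≤ 2 * ℓ := by
    unfold Pool.Agent.Helper18.UC.LL
    exact hlL
  have hBm : Real.log (LL a) * m ≤ 2 * ℓ * (48 * D) :=
    mul_le_mul hBL hmE hm0 (by linarith)
  have hsm : s * m ≤ ℓ * (48 * D) := mul_le_mul (by linarith) hmE hm0 (by linarith)
  have hΛJ : |Λ - Real.log (π * |a|)| ≤ 2 * D + 96 * (ℓ * D) := by
    rw [abs_le]
    constructor
    · nlinarith
    · nlinarith
  calc |Λ - Real.log (π * |a|)| ≤ 2 * D + 96 * (ℓ * D) := hΛJ
    _ ≤ 200 * ℓ * D := by nlinarith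
    _ ≤ |a| ^ (-(e / 2)) := hfin'

end Pool.Agent.Helper80.AU
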