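import Pool.Agent.Helper80.AFp.Fin
import Pool.Agent.Helper80.AU.Big

/-! # Project AU: from the mean growth to the ergodic component -/

set_option autoImplicit false
open MeasureTheory Real Set Filter Topology

namespace Pool.Agent.Helper80.AU

open Pool.Agent.Helper18.UC (nn LL rep)
open Pool.Agent.Helper46.QP (TT Td)
open Pool.Agent.Helper80.AFp (pr Fs_eq gN_eq po_eq)

variable {d : ℕ}

private lemma probC (d : ℕ) : IsProbabilityMeasure (volume : Measure (Td d × TT)) := by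
  have h1 : IsProbabilityMeasure (volume : Measure UnitAddCircle) := ⟨by
    rw [AddCircle.measure_univ, ENNReal.ofReal_one]⟩
  have h2 : IsProbabilityMeasure (volume : Measure TT) := by
    change IsProbabilityMeasure ((volume : Measure UnitAddCircle).prod (volume : Measure UnitAddCircle))
    infer_instance
  have h3 : IsProbabilityMeasure (volume : Measure (Td d)) := by
    change IsProbabilityMeasure (Measure.pi fun _ => (volume : Measure UnitAddCircle))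
    infer_instance
  change IsProbabilityMeasure ((volume : Measure (Td d)).prod (volume : Measure TT))
  infer_instance

private lemma vaC (a : ℝ) (x : UnitAddCircle) :
    Pool.Agent.Helper46.QP.va (a : ℂ) x = 2 + 2 * π * a * (fourier 1 x : ℂ).re := by
  show 2 + 2 * π * (((a : ℝ) : ℂ) * Pool.Agent.Helper46.QP.ee x).re = _
  rw [Complex.re_ofReal_mul]
  unfold Pool.Agent.Helper46.QP.ee
  ring

/-- the component: the points whose lower exponent is larger than `7/8 log |a|` -/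
noncomputable def Oc (α : Td d) (a : ℝ) (b : Td d → ℝ) : Set (Td d × TT) :=
  Pool.Agent.Helper23.AF.om α (pr a b) (7 / 8 * Real.log |a|)

theorem lim_fdS {α : Td d} {f : Td d → ℝ × ℝ} {S : Set (Td d × TT)} {Λ : ℝ}
    (h : ∀ᵐ p : Td d × TT, p ∈ S →
      Tendsto (fun n : ℕ => Real.log (Pool.Agent.Helper23.AF.gN α f n p) / n) atTop (𝓝 Λ)) :
    ∀ᵐ θ : Td d, ∀ᵐ z : ℝ × ℝ, (θ, ((z.1 : UnitAddCircle), (z.2 : UnitAddCircle))) ∈ S →
      Tendsto (fun n : ℕ => Real.log ‖fderiv ℝ (Pool.Agent.Helper23.AF.po (Pool.Agent.Helper23.AF.sq α f θ) n) z‖ / n)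
        atTop (𝓝 Λ) := by
  have h2 := Measure.ae_ae_of_ae_prod h
  filter_upwards [h2] with θ hθ
  filter_upwards [Pool.Agent.Helper46.QP.ae_tor hθ] with z hz hzS
  refine Pool.Agent.Helper23.AF.po_lim ?_
  have e : ∀ n : ℕ, nn (Pool.Agent.Helper23.AF.pM (Pool.Agent.Helper23.AF.sq α f θ) n z) =
      Pool.Agent.Helper23.AF.gN α f n (θ, Pool.Agent.Helper46.QP.tor z) := by
    intro n
    show _ = nn (Pool.Agent.Helper23.AF.Mx (Pool.Agent.Helper23.AF.sq α f θ) (Pool.Agent.Helper18.UC.toT z) n)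
    rw [Pool.Agent.Helper23.AF.Mx_toT]
  simp only [e]
  exact hz hzS

/-- from the mean growth to the component -/
theorem comp {κ : ℝ} (hκ : 0 < κ) : ∃ κ' : ℝ, 0 < κ' ∧ ∃ A₂ : ℝ, 1 ≤ A₂ ∧ ∀ (d : ℕ) (α : Td d) (a : ℝ) (b : Td d → ℝ),
    (∀ k : Fin d → ℤ, k ≠ 0 → ∑ m, k m • α m ≠ 0) → A₂ ≤ |a| → Continuous b →
    (∃ i₀ : ℕ, ∀ i ≥ i₀, Real.log (π * |a|) - |a| ^ (-κ) ≤ Pool.Agent.Helper95.AU.mg α a b (2 ^ i) / 2 ^ i) →
      MeasurableSet (Oc α a b) ∧ Pool.Agent.Helper95.AF.Fa α a b ⁻¹' (Oc α a b) = Oc α a b ∧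
      1 - |a| ^ (-κ') ≤ volume.real (Oc α a b) ∧
      (∀ (ξ : ℂ) (h : Td d × TT → ℂ), Measurable h →
        (∀ᵐ p, p ∈ Oc α a b → h (Pool.Agent.Helper95.AF.Fa α a b p) = ξ * h p) →
        (∀ᵐ p, p ∈ Oc α a b → h p = 0) ∨ ∃ (k : Fin d → ℤ) (c : ℂ), fourier 1 (∑ m, k m • α m) = ξ ∧
          ∀ᵐ p : Td d × TT, p ∈ Oc α a b → h p = c * fourier 1 (∑ m, k m • p.1 m)) ∧
      ∃ Λ : ℝ, |Λ - Real.log (π * |a|)| ≤ |a| ^ (-κ') ∧ ∀ᵐ θ : Td d, ∀ᵐ z : ℝ × ℝ,
        (θ, ((z.1 : UnitAddCircle), (z.2 : UnitAddCircle))) ∈ Oc α a b →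
        Tendsto (fun n : ℕ => Real.log ‖fderiv ℝ (Pool.Agent.Helper95.AF.po a (Pool.Agent.Helper82.AN.sq α b θ) n) z‖ / n)
          atTop (𝓝 Λ) := by
  obtain ⟨κ', hκ', A₂, hA₂, hbig⟩ := big hκ
  obtain ⟨A₃, hA₃⟩ := Pool.Agent.Helper23.AF.num_ok_const
  refine ⟨κ', hκ', max A₂ A₃, hA₂.trans (le_max_left _ _), fun d α a b hind ha hb hgr => ?_⟩
  have hnum := hA₃ a ((le_max_right _ _).trans ha)
  have hprob : IsProbabilityMeasure (volume : Measure (Td d × TT)) := probC d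
  have hf : Measurable (pr (d := d) a b) := measurable_const.prodMk hb.measurable
  have hLL : ∀ θ : Td d, LL (pr a b θ).1 ≤ LL a := fun θ => le_refl _
  obtain ⟨lam, hlm, hlb, hli, hlt, hlo⟩ := Pool.Agent.Helper23.AF.ex_lam (α := α) hf hLL
  have hinv : Pool.Agent.Helper23.AF.Fs α (pr a b) ⁻¹' (Oc α a b) = Oc α a b :=
    Pool.Agent.Helper23.AF.om_inv (α := α) hLL (7 / 8 * Real.log |a|)
  have hom : MeasurableSet (Oc α a b) := Pool.Agent.Helper23.AF.meas_om (α := α) hf (7 / 8 * Real.log |a|)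
  have hmean : Real.log (π * |a|) - |a| ^ (-κ) ≤ ∫ p, lam p := by
    refine Pool.Agent.Helper23.AF.lam_mean hf hLL hlt ?_
    obtain ⟨i₀, hi₀⟩ := hgr
    refine ⟨i₀, fun i hi => ?_⟩
    have h1 := hi₀ i hi
    unfold Pool.Agent.Helper95.AU.mg at h1
    simp only [← gN_eq] at h1
    exact h1
  have hle := Pool.Agent.Helper23.AF.lam_le hf hLL hlt hom hinv
  have hle' : ∫ p in Oc α a b, lam p ≤ ∫ p in Oc α a b, Real.log (|2 + 2 * π * a * (fourier 1 p.2.1 : ℂ).re| + 2) := by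
    have e : ∀ p : Td d × TT, Pool.Agent.Helper23.AF.va (pr a b p.1) p.2.1 =
        2 + 2 * π * a * (fourier 1 p.2.1 : ℂ).re := fun p => vaC a p.2.1
    simp only [e] at hle
    exact hle
  obtain ⟨h1, h2⟩ := hbig d a lam (Oc α a b) ((le_max_left _ _).trans ha) hlm hom hlb
    (hlo (7 / 8 * Real.log |a|)) hle' hmean
  obtain ⟨Λ, hΛ⟩ := Pool.Agent.Helper23.AF.lam_const hind hf hLL hnum hlm hli
  refine ⟨hom, ?_, ?_, ?_, Λ, h2 Λ hΛ, ?_⟩
  · rw [← Fs_eq]
    exact hinv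
  · have := probReal_compl_eq_one_sub (μ := (volume : Measure (Td d × TT))) hom
    linarith
  · intro ξ h hm hh
    rw [← Fs_eq] at hh
    exact Pool.Agent.Helper23.AF.eig_om hind hf hLL hnum ξ hm hh
  · have h4 : ∀ᵐ p : Td d × TT, p ∈ Oc α a b →
        Tendsto (fun n : ℕ => Real.log (Pool.Agent.Helper23.AF.gN α (pr a b) n p) / n) atTop (𝓝 Λ) := by
      filter_upwards [hlt, hΛ] with p h5 h6 hp
      rw [← h6 hp]
      exact h5
    have h5 := lim_fdS h4
    filter_upwards [h5] with θ hθ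
    filter_upwards [hθ] with z hz hzO
    have e : ∀ n : ℕ, Pool.Agent.Helper23.AF.po (Pool.Agent.Helper23.AF.sq α (pr a b) θ) n =
        Pool.Agent.Helper95.AF.po a (Pool.Agent.Helper82.AN.sq α b θ) n := fun n => funext fun q => po_eq a _ n q
    have h6 := hz hzO
    simp only [e] at h6
    exact h6

end Pool.Agent.Helper80.AU
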