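import Pool.Agent.Helper80.AU.Comp
import Pool.Agent.Helper83.AG.FX

/-! # Project AU: the component is the whole space when the interface `Lv` holds -/

set_option autoImplicit false
open MeasureTheory Real Set Filter Topology

namespace Pool.Agent.Helper80.AU

open Pool.Agent.Helper18.UC (nn LL rep)
open Pool.Agent.Helper46.QP (TT Td)
open Pool.Agent.Helper80.AFp (pr Fs_eq gN_eq po_eq)

variable {d : ℕ}

theorem full {κ : ℝ} (hκ : κ < 1 / 8) {α : Td d} {a : ℝ} {b : Td d → ℝ}
    (hind : ∀ k : Fin d → ℤ, k ≠ 0 → ∑ m, k m • α m ≠ 0) (ha : 10 ≤ |a|) (hb : Continuous b)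
    (h : Pool.Agent.Helper95.AG.Lv κ α a b) : ∀ᵐ p : Td d × TT, p ∈ Oc α a b := by
  have hlog : 0 < Real.log |a| := Real.log_pos (by linarith)
  have hf : Measurable (pr (d := d) a b) := measurable_const.prodMk hb.measurable
  have hLL : ∀ θ : Td d, LL (pr a b θ).1 ≤ LL a := fun θ => le_refl _
  obtain ⟨lam, hlm, hlb, hli, hlt, hlo⟩ := Pool.Agent.Helper23.AF.ex_lam (α := α) hf hLL
  have hli' : ∀ᵐ p, lam (Pool.Agent.Helper95.AF.Fa α a b p) = lam p := by
    rw [← Fs_eq]
    exact hli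
  have hlt' : ∀ᵐ p, Tendsto (fun n : ℕ => Real.log (Pool.Agent.Helper95.AF.gA α a b n p) / n) atTop (𝓝 (lam p)) := by
    filter_upwards [hlt] with p hp
    simp only [gN_eq] at hp
    exact hp
  have hlow := Pool.Agent.Helper83.AG.fin_exp hind ha hb h hlm hli' hlt'
  filter_upwards [hlow, hlo (7 / 8 * Real.log |a|)] with p h1 h2
  refine h2.2 ?_
  have h3 : 7 / 8 * Real.log |a| < (1 - κ) * Real.log |a| := mul_lt_mul_of_pos_right (by linarith) hlog
  linarith

end Pool.Agent.Helper80.AU
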